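import Pool.Agent.K3h56.BN.R7

set_option autoImplicit false

/-!
# MP_5a4862_nt: the rate of approximation in the Beurling-Nyman theorem

For `1 ≤ p < ∞` and `0 < λ < 1` let `dist p λ` be the distance in `L^p(0,1)` of the constant function `1`
from the functions `∑ c_θ {θ/x}` with finitely many `θ ∈ [λ, 1]` and `∑ c_θ θ = 0`, and let `Θ` be the
supremum of the real parts of the zeros of zeta. Then `dist p λ = λ ^ (max (0, 1/p - Θ) + o(1))` as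
`λ → 0`, with no hypothesis, and the exponent is the same when only the dilations `θ = 1/k`, `k ≤ n = 1/λ`
are allowed; for `p Θ < 1` it is attained by the coefficients `-μ(k)`. Each zero `ρ` gives a lower bound
`c λ ^ max (0, 1/p - Re ρ) (log 1/λ) ^ (-(1 - 1/p))`. There is a zero-free half-plane `Re s ≥ σ₀`,
`σ₀ < 1/p`, if and only if `dist p λ ≤ λ ^ δ` for some `δ > 0` and arbitrarily small `λ`.
-/

namespace Pool.Agent.Results.MP_5a4862_nt.BeurlingRate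

open Filter Topology MeasureTheory

noncomputable section

/-- The distance in `L^p(0,1)` of `1` from the functions `∑_{θ ∈ s} c_θ {θ/x}` with `s` a finite subset of
`[l, 1]` and `∑_{θ ∈ s} c_θ θ = 0`; here `{·}` is the fractional part. -/
def dist (p l : ℝ) : ℝ :=
  sInf {e : ℝ | ∃ (s : Finset ℝ) (c : ℝ → ℝ), (∀ θ ∈ s, l ≤ θ ∧ θ ≤ 1) ∧ ∑ θ ∈ s, c θ * θ = 0 ∧
    e = (∫ x in (0 : ℝ)..1, |1 - ∑ θ ∈ s, c θ * Int.fract (θ / x)| ^ p) ^ (1 / p)}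

/-- The `L^p(0,1)` norm of `1 - ∑_{2 ≤ k ≤ n} c_k ({1/(kx)} - {1/x}/k)`. -/
def err (p : ℝ) (n : ℕ) (c : ℕ → ℝ) : ℝ :=
  (∫ x in (0 : ℝ)..1,
    |1 - ∑ k ∈ Finset.Icc 2 n, c k * (Int.fract (1 / (k * x)) - Int.fract (1 / x) / k)| ^ p) ^ (1 / p)

/-- The distance in `L^p(0,1)` of `1` from the span of `{1/(kx)} - {1/x}/k`, `2 ≤ k ≤ n`. -/
def distNat (p : ℝ) (n : ℕ) : ℝ := ⨅ c : ℕ → ℝ, err p n c

/-- The supremum of the real parts of the zeros of the Riemann zeta function. -/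
def Theta : ℝ := sSup {σ : ℝ | ∃ s : ℂ, riemannZeta s = 0 ∧ s.re = σ}

/-- **The rate of approximation in the Beurling-Nyman theorem.** -/
theorem result :
    (∀ p : ℝ, 1 ≤ p → Tendsto (fun l : ℝ => Real.log (dist p l) / Real.log l) (𝓝[>] 0)
      (𝓝 (max 0 (1 / p - Theta)))) ∧
    (∀ p : ℝ, 1 ≤ p → Tendsto (fun n : ℕ => Real.log (distNat p n) / Real.log n) atTop
      (𝓝 (-(max 0 (1 / p - Theta))))) ∧
    (∀ p : ℝ, 1 ≤ p → p * Theta < 1 →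
      Tendsto (fun n : ℕ => Real.log (err p n fun k => -(ArithmeticFunction.moebius k : ℝ)) / Real.log n)
        atTop (𝓝 (-(1 / p - Theta)))) ∧
    (∀ (p : ℝ) (ρ : ℂ), 1 ≤ p → riemannZeta ρ = 0 → 0 < ρ.re → ∃ K : ℝ, 0 < K ∧ ∀ᶠ l : ℝ in 𝓝[>] 0,
      K * (l ^ (max 0 (1 / p - ρ.re)) * Real.log (1 / l) ^ (-(1 - 1 / p))) ≤ dist p l) ∧
    (∀ p : ℝ, 1 ≤ p → ((∃ σ₀ : ℝ, 1 / 2 < σ₀ ∧ σ₀ < 1 / p ∧ ∀ s : ℂ, σ₀ ≤ s.re → riemannZeta s ≠ 0) ↔
      ∃ δ : ℝ, 0 < δ ∧ ∃ᶠ l : ℝ in 𝓝[>] 0, dist p l ≤ l ^ δ)) := by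
  have eT : Theta = Pool.Agent.K3h56.BN.Th := rfl
  refine ⟨fun p hp => ?_, fun p hp => ?_, fun p hp h => ?_, fun p ρ hp hz hρ => ?_, fun p hp => ?_⟩
  · exact Pool.Agent.K3h56.BN.BNd_limit hp
  · exact Pool.Agent.K3h56.BN.dst_limit hp
  · have h1 := Pool.Agent.K3h56.BN.mu_limit hp h
    rw [eT, show -(1 / p - Pool.Agent.K3h56.BN.Th) = Pool.Agent.K3h56.BN.Th - 1 / p by ring]
    refine h1.congr fun n => ?_
    rw [← Pool.Agent.K3h56.BN.integral_eq (by linarith)]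
    rfl
  · have hρ1 : ρ.re < 1 := by
      by_contra hc
      exact riemannZeta_ne_zero_of_one_le_re (not_lt.1 hc) hz
    obtain ⟨K, hK, l0, hl0, -, h⟩ := Pool.Agent.K3h56.BN.BNd_lower hρ hρ1 hz hp
    refine ⟨K, hK, ?_⟩
    filter_upwards [self_mem_nhdsWithin, Ioc_mem_nhdsGT hl0] with l h1 h2
    exact h l h1 h2.2
  · exact Pool.Agent.K3h56.BN.BNd_iff hp

end

end Pool.Agent.Results.MP_5a4862_nt.BeurlingRate
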