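import Pool.Agent.K3h51.Li.Fin

set_option autoImplicit false

/-!
# MP_5a4862_nt: Li coefficients of the derivatives of xi, and the constant 8

For `n ≥ 0` let `λ(n, k)`, `k ≥ 1`, be the Li coefficients of the `n`-th derivative of the Riemann xi
function.  For `n = 0` these are the classical Li coefficients, and the Riemann hypothesis holds if
and only if all of them are nonnegative.  Here: for every `κ < 8` the coefficients `λ(n, k)` are
strictly positive for all large `n` and all `k ≤ exp (κ n)`; and the constant `8` can be improved if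
and only if zeta has a zero-free half-plane `Re s > θ` with `θ < 1`.
-/

namespace Pool.Agent.Results.MP_5a4862_nt.LiCoefficientsEight

/-- The Riemann xi function `s (s - 1) π^(-s/2) Γ(s/2) ζ(s) / 2`, as an entire function. -/
noncomputable def xi (s : ℂ) : ℂ := s * (s - 1) / 2 * completedRiemannZeta₀ s + 1 / 2

/-- The `k`-th Li coefficient of the `n`-th derivative of `xi`, that is `1 / (k - 1)!` times the
value at `w = 0` of the `(k - 1)`-st derivative of the logarithmic derivative of the function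
`w ↦ xi^(n) (1 / (1 - w))` (these numbers are real, and the real part only serves to have a real
number as the value). -/
noncomputable def li (n k : ℕ) : ℝ :=
  (iteratedDeriv (k - 1) (logDeriv (fun w : ℂ => iteratedDeriv n xi (1 / (1 - w)))) 0).re /
    ((k - 1).factorial : ℝ)

/-- `λ(n, k) > 0` whenever `n ≥ N` and `1 ≤ k ≤ exp (κ n)`. -/
def UpTo (κ : ℝ) (N : ℕ) : Prop :=
  ∀ n k : ℕ, N ≤ n → 1 ≤ k → (k : ℝ) ≤ Real.exp (κ * n) → 0 < li n k

/-- `λ(n, k) ≥ 0` in all the remaining cases. -/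
def Rest (κ : ℝ) (N : ℕ) : Prop :=
  ∀ n k : ℕ, 1 ≤ k → (n < N ∨ Real.exp (κ * n) < k) → 0 ≤ li n k

/-- The zeta function has no zeros with `Re s > θ`. -/
def ZeroFree (θ : ℝ) : Prop := ∀ s : ℂ, θ < s.re → riemannZeta s ≠ 0

theorem result :
    (∀ κ : ℝ, κ < 8 → ∃ N : ℕ, UpTo κ N ∧ (RiemannHypothesis ↔ Rest κ N)) ∧
    (∀ θ : ℝ, 1 / 2 ≤ θ → θ < 1 → ZeroFree θ → ∀ κ : ℝ, κ * (θ - 1 / 2) < 4 → ∃ N : ℕ, UpTo κ N) ∧
    ((∃ κ : ℝ, 8 < κ ∧ ∃ N : ℕ, ∀ n k : ℕ, N ≤ n → 1 ≤ k → (k : ℝ) ≤ Real.exp (κ * n) → 0 ≤ li n k) ↔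
      ∃ θ : ℝ, θ < 1 ∧ ZeroFree θ) :=
  Pool.Agent.K3h51.Li.final

end Pool.Agent.Results.MP_5a4862_nt.LiCoefficientsEight
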