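import Pool.Agent.K3h81.RB.Mis2

set_option autoImplicit false

/-!
# MP_5a4862_nt: zero-free half-planes and the prime factors of integers with a large value of `n / φ(n)`

Let `m y` be the smallest prime which does not divide some integer `n ≥ y` with
`n / φ(n) ≥ e^γ log log n`, and let `Θ` be the supremum of the real parts of the zeros of zeta. Then
`log (m y) / log log y` tends to `1 - Θ`. In particular there is a zero-free half-plane `Re s > σ₀` with
`σ₀ < 1` if and only if `m y ≥ (log y) ^ δ` for some `δ > 0` and all large `y`. Unconditionally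
`m y ≥ exp (c √(log log y))` for all large `y` and some `c > 0`.

For `0 < β ≤ 1` let `mNear β y` be the smallest prime which does not divide some integer `n ≥ y` with
`n / φ(n) ≥ e^γ log log n (1 - (log n)^(-β))`. Then `log (mNear β y) / log log y` tends to `min β (1 - Θ)`.
In particular zeta has no zero with real part `> 1 - β` if and only if this limit is `β`.
-/

namespace Pool.Agent.Results.MP_5a4862_nt.SmallestMissingPrime

open Filter Topology

noncomputable section

/-- `n / φ(n) ≥ e^γ log log n` (with Mathlib's `log 0 = 0` and `log x = log |x|` for the finitely many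
`n` where `log log n` is not defined). -/
def Large (n : ℕ) : Prop :=
  Real.exp Real.eulerMascheroniConstant * Real.log (Real.log n) ≤ (n : ℝ) / Nat.totient n

/-- The smallest prime which does not divide some integer `n ≥ y`, `n ≥ 1`, with
`n / φ(n) ≥ e^γ log log n` (such primes exist for all large `y`). -/
def m (y : ℝ) : ℕ := sInf {q : ℕ | q.Prime ∧ ∃ n : ℕ, 1 ≤ n ∧ y ≤ n ∧ Large n ∧ ¬ q ∣ n}

/-- `n / φ(n) ≥ e^γ log log n (1 - (log n)^(-β))`. -/
def Near (β : ℝ) (n : ℕ) : Prop :=
  Real.exp Real.eulerMascheroniConstant * Real.log (Real.log n) * (1 - Real.log n ^ (-β)) ≤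
    (n : ℝ) / Nat.totient n

/-- The smallest prime which does not divide some integer `n ≥ y`, `n ≥ 1`, with
`n / φ(n) ≥ e^γ log log n (1 - (log n)^(-β))`. -/
def mNear (β y : ℝ) : ℕ := sInf {q : ℕ | q.Prime ∧ ∃ n : ℕ, 1 ≤ n ∧ y ≤ n ∧ Near β n ∧ ¬ q ∣ n}

/-- The supremum of the real parts of the zeros of the Riemann zeta function. -/
def Theta : ℝ := sSup {σ : ℝ | ∃ s : ℂ, riemannZeta s = 0 ∧ s.re = σ}

lemma m_eq (y : ℝ) (hy : 1 ≤ y) : m y = Pool.Agent.K3h81.RB.mis y := by
  unfold m Pool.Agent.K3h81.RB.mis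
  congr 1
  ext q
  simp only [Set.mem_ofPred_eq]
  refine and_congr_right fun _ => exists_congr fun n => ?_
  have key : 1 ≤ n → (Large n ↔ Pool.Agent.K3h81.RB.Ef n) := by
    intro hn
    unfold Large Pool.Agent.K3h81.RB.Ef
    have h1 : (0 : ℝ) < Nat.totient n := by exact_mod_cast Nat.totient_pos.2 hn
    rw [le_div_iff₀ h1]
    constructor <;> intro h <;> linarith
  constructor
  · rintro ⟨h1, h2, h3, h4⟩
    exact ⟨(key h1).1 h3, h2, h4⟩
  · rintro ⟨h1, h2, h3⟩
    have h4 : 1 ≤ n := by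
      have : (1 : ℝ) ≤ n := hy.trans h2
      exact_mod_cast this
    exact ⟨h4, h2, (key h4).2 h1, h3⟩

lemma mNear_eq (β y : ℝ) (hy : 1 ≤ y) : mNear β y = Pool.Agent.K3h81.RB.misb β y := by
  unfold mNear Pool.Agent.K3h81.RB.misb
  congr 1
  ext q
  simp only [Set.mem_ofPred_eq]
  refine and_congr_right fun _ => exists_congr fun n => ?_
  have key : 1 ≤ n → (Near β n ↔ Pool.Agent.K3h81.RB.Efb β n) := by
    intro hn
    unfold Near Pool.Agent.K3h81.RB.Efb
    have h1 : (0 : ℝ) < Nat.totient n := by exact_mod_cast Nat.totient_pos.2 hn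
    rw [le_div_iff₀ h1]
    constructor <;> intro h <;> linarith
  constructor
  · rintro ⟨h1, h2, h3, h4⟩
    exact ⟨(key h1).1 h3, h2, h4⟩
  · rintro ⟨h1, h2, h3⟩
    have h4 : 1 ≤ n := by
      have : (1 : ℝ) ≤ n := hy.trans h2
      exact_mod_cast this
    exact ⟨h4, h2, (key h4).2 h1, h3⟩

lemma near_iff {β c : ℝ} :
    Tendsto (fun y : ℝ => Real.log (mNear β y) / Real.log (Real.log y)) atTop (𝓝 c) ↔
      Tendsto (fun y : ℝ => Real.log (Pool.Agent.K3h81.RB.misb β y) / Real.log (Real.log y)) atTop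
        (𝓝 c) := by
  refine tendsto_congr' ?_
  filter_upwards [eventually_ge_atTop 1] with y hy
  rw [mNear_eq β y hy]

lemma lim : Tendsto (fun y : ℝ => Real.log (m y) / Real.log (Real.log y)) atTop (𝓝 (1 - Theta)) := by
  rw [show Theta = Pool.Agent.K3h81.RB.Th from rfl]
  refine Pool.Agent.K3h81.RB.mis_lim.congr' ?_
  filter_upwards [eventually_ge_atTop 1] with y hy
  rw [m_eq y hy]

/-- **The smallest prime missing from the integers with a large (or nearly large) value of `n / φ(n)`.** -/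
theorem result :
    Tendsto (fun y : ℝ => Real.log (m y) / Real.log (Real.log y)) atTop (𝓝 (1 - Theta)) ∧
    ((∃ σ₀ : ℝ, 1 / 2 < σ₀ ∧ σ₀ < 1 ∧ ∀ s : ℂ, σ₀ ≤ s.re → riemannZeta s ≠ 0) ↔
      ∃ δ : ℝ, 0 < δ ∧ ∀ᶠ y : ℝ in atTop, Real.log y ^ δ ≤ m y) ∧
    (∃ c : ℝ, 0 < c ∧ ∀ᶠ y : ℝ in atTop, Real.exp (c * √(Real.log (Real.log y))) ≤ m y) ∧
    (∀ β : ℝ, 0 < β → β ≤ 1 →
      Tendsto (fun y : ℝ => Real.log (mNear β y) / Real.log (Real.log y)) atTop
        (𝓝 (min β (1 - Theta)))) ∧
    (∀ β : ℝ, 0 < β → β ≤ 1 → ((∀ s : ℂ, 1 - β < s.re → riemannZeta s ≠ 0) ↔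
      Tendsto (fun y : ℝ => Real.log (mNear β y) / Real.log (Real.log y)) atTop (𝓝 β))) := by
  have hll : ∀ᶠ y : ℝ in atTop, 1 ≤ Real.log y ∧ 1 ≤ Real.log (Real.log y) := by
    filter_upwards [Real.tendsto_log_atTop.eventually_ge_atTop 1,
      (Real.tendsto_log_atTop.comp Real.tendsto_log_atTop).eventually_ge_atTop 1] with y h2 h3
    exact ⟨h2, h3⟩
  refine ⟨lim, ?_, ?_, fun β h0 h1 => near_iff.2 (Pool.Agent.K3h81.RB.misb_lim h0 h1),
    fun β h0 h1 => (Pool.Agent.K3h81.RB.misb_crit h0 h1).trans near_iff.symm⟩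
  · constructor
    · rintro ⟨σ₀, h0, h1, h⟩
      have hTh : Theta ≤ σ₀ := by
        by_contra hcon
        push Not at hcon
        exact Pool.Agent.K3h81.RB.not_free_of_lt (show σ₀ < Pool.Agent.K3h81.RB.Th from hcon)
          fun s hs => h s hs.le
      refine ⟨(1 - σ₀) / 2, by linarith, ?_⟩
      filter_upwards [lim.eventually (lt_mem_nhds (show (1 - σ₀) / 2 < 1 - Theta by linarith)), hll] with y h2 ⟨h3, h4⟩
      rw [lt_div_iff₀ (by linarith)] at h2
      have hm0 : (0 : ℝ) < m y := by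
        rcases Nat.eq_zero_or_pos (m y) with h5 | h5
        · exfalso
          rw [h5, Nat.cast_zero, Real.log_zero] at h2
          have : 0 < (1 - σ₀) / 2 * Real.log (Real.log y) := mul_pos (by linarith) (by linarith)
          linarith
        · exact_mod_cast h5
      rw [Real.rpow_def_of_pos (by linarith), ← Real.le_log_iff_exp_le hm0]
      linarith
    · rintro ⟨δ, hδ, h⟩
      have h1 : δ ≤ 1 - Theta := by
        refine ge_of_tendsto lim ?_
        filter_upwards [h, hll] with y h2 ⟨h3, h4⟩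
        rw [le_div_iff₀ (by linarith)]
        have h5 := Real.log_le_log (by positivity) h2
        rwa [Real.log_rpow (by linarith)] at h5
      have hge : 1 / 2 ≤ Theta := Pool.Agent.K3h81.RB.Th_ge
      refine ⟨(1 + Theta) / 2, by linarith, by linarith, fun s hs => ?_⟩
      exact Pool.Agent.K3h81.RB.Th_free s (show Theta < s.re by linarith)
  · obtain ⟨c, hc, h⟩ := Pool.Agent.K3h81.RB.mis_low_exp
    refine ⟨c, hc, ?_⟩
    filter_upwards [h, eventually_ge_atTop 1] with y h1 hy
    rwa [m_eq y hy]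

end

end Pool.Agent.Results.MP_5a4862_nt.SmallestMissingPrime
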