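import Pool.Agent.K3h81.RB.Lim2
import Pool.Agent.K3h81.RB.Up2
import Pool.Agent.K3h81.RB.Nea4

set_option autoImplicit false

/-!
# MP_5a4862_nt: zero-free half-planes and integers with a large value of `n / φ(n)`

Let `N x` be the number of integers `n ≤ x` with `n / φ(n) ≥ e^γ log log n`, and let `Θ` be the supremum
of the real parts of the zeros of zeta. Then `log log N x / log log x` tends to `(1 + Θ) / 2`.
In particular there is a zero-free half-plane `Re s > σ₀` with `σ₀ < 1` if and only if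
`N x ≤ exp ((log x) ^ (1 - δ))` for some `δ > 0` and all large `x`. Unconditionally
`N x ≤ x ^ exp (-c √(log log x))` for all large `x` and some `c > 0`.

Let `NBy s β x` be the number of integers `n ≤ x` with `n / φ(n) ≥ e^γ log log n (1 + s (log n)^(-β))`.
For `β > 0` with `β > 1 - Θ` one has the same limit for `NBy 1 β`, and for `0 < β < 1 - Θ` there
are only finitely many such `n` with `s = 1`. For `s = -1` and `0 < β ≤ 1` the limit is
`max (1 - β / 2) ((1 + Θ) / 2)`. So a zero-free half-plane exists if and only if this limit is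
`1 - β / 2` for some `β` with `0 < β ≤ 1`.
-/

namespace Pool.Agent.Results.MP_5a4862_nt.TotientExceptions

open Filter Topology

noncomputable section

/-- `n / φ(n) ≥ e^γ log log n` (with Mathlib's `log 0 = 0` and `log x = log |x|` for the finitely many
`n` where `log log n` is not defined). -/
def Large (n : ℕ) : Prop :=
  Real.exp Real.eulerMascheroniConstant * Real.log (Real.log n) ≤ (n : ℝ) / Nat.totient n

/-- The number of integers `1 ≤ n ≤ x` with `n / φ(n) ≥ e^γ log log n`. -/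
def N (x : ℝ) : ℕ := Set.ncard {n : ℕ | 1 ≤ n ∧ (n : ℝ) ≤ x ∧ Large n}

/-- `n / φ(n) ≥ e^γ log log n (1 + s (log n)^(-β))`. -/
def LargeBy (s β : ℝ) (n : ℕ) : Prop :=
  Real.exp Real.eulerMascheroniConstant * Real.log (Real.log n) * (1 + s * Real.log n ^ (-β)) ≤
    (n : ℝ) / Nat.totient n

/-- The number of integers `1 ≤ n ≤ x` with `LargeBy s β n`. -/
def NBy (s β x : ℝ) : ℕ := Set.ncard {n : ℕ | 1 ≤ n ∧ (n : ℝ) ≤ x ∧ LargeBy s β n}

/-- The supremum of the real parts of the zeros of the Riemann zeta function. -/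
def Theta : ℝ := sSup {σ : ℝ | ∃ s : ℂ, riemannZeta s = 0 ∧ s.re = σ}

lemma N_eq (x : ℝ) (hx : 0 ≤ x) : N x = Pool.Agent.K3h81.RB.cE Pool.Agent.K3h81.RB.Ef x := by
  classical
  unfold N Pool.Agent.K3h81.RB.cE
  rw [← Set.ncard_coe_finset]
  congr 1
  ext n
  simp only [Set.mem_ofPred_eq, Finset.coe_filter, Finset.mem_Icc]
  rw [Nat.le_floor_iff hx, and_assoc]
  refine and_congr_right fun hn => and_congr_right fun _ => ?_
  unfold Large Pool.Agent.K3h81.RB.Ef
  have h1 : (0 : ℝ) < Nat.totient n := by exact_mod_cast Nat.totient_pos.2 hn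
  rw [le_div_iff₀ h1]
  constructor <;> intro h <;> linarith

lemma ncard_eq {P Q : ℕ → Prop} (h : ∀ n, 1 ≤ n → (P n ↔ Q n)) (x : ℝ) (hx : 0 ≤ x) :
    Set.ncard {n : ℕ | 1 ≤ n ∧ (n : ℝ) ≤ x ∧ P n} = Pool.Agent.K3h81.RB.cE Q x := by
  classical
  unfold Pool.Agent.K3h81.RB.cE
  rw [← Set.ncard_coe_finset]
  congr 1
  ext n
  simp only [Set.mem_ofPred_eq, Finset.coe_filter, Finset.mem_Icc]
  rw [Nat.le_floor_iff hx, and_assoc]
  exact and_congr_right fun hn => and_congr_right fun _ => h n hn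

lemma near_iff (β : ℝ) (n : ℕ) (hn : 1 ≤ n) : LargeBy (-1) β n ↔ Pool.Agent.K3h81.RB.Efb β n := by
  unfold LargeBy Pool.Agent.K3h81.RB.Efb
  have h1 : (0 : ℝ) < Nat.totient n := by exact_mod_cast Nat.totient_pos.2 hn
  rw [le_div_iff₀ h1, neg_one_mul, ← sub_eq_add_neg]
  constructor <;> intro h <;> linarith

lemma surplus_iff (β : ℝ) (n : ℕ) (hn : 1 ≤ n) : LargeBy 1 β n ↔ Pool.Agent.K3h81.RB.Efp β n := by
  unfold LargeBy Pool.Agent.K3h81.RB.Efp
  have h1 : (0 : ℝ) < Nat.totient n := by exact_mod_cast Nat.totient_pos.2 hn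
  rw [le_div_iff₀ h1, one_mul]
  constructor <;> intro h <;> linarith

lemma tendsto_near (β l : ℝ) :
    Tendsto (fun x : ℝ => Real.log (Real.log (NBy (-1) β x)) / Real.log (Real.log x)) atTop (𝓝 l) ↔
    Tendsto (fun x : ℝ => Real.log (Real.log (Pool.Agent.K3h81.RB.cE (Pool.Agent.K3h81.RB.Efb β) x)) /
      Real.log (Real.log x)) atTop (𝓝 l) := by
  refine tendsto_congr' ?_
  filter_upwards [eventually_ge_atTop 0] with x hx
  rw [NBy, ncard_eq (near_iff β) x hx]

lemma tendsto_surplus (β l : ℝ) :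
    Tendsto (fun x : ℝ => Real.log (Real.log (NBy 1 β x)) / Real.log (Real.log x)) atTop (𝓝 l) ↔
    Tendsto (fun x : ℝ => Real.log (Real.log (Pool.Agent.K3h81.RB.cE (Pool.Agent.K3h81.RB.Efp β) x)) /
      Real.log (Real.log x)) atTop (𝓝 l) := by
  refine tendsto_congr' ?_
  filter_upwards [eventually_ge_atTop 0] with x hx
  rw [NBy, ncard_eq (surplus_iff β) x hx]

/-- **The numbers of integers with a large value of `n / φ(n)`.** -/
theorem result :
    Tendsto (fun x : ℝ => Real.log (Real.log (N x)) / Real.log (Real.log x)) atTop (𝓝 ((1 + Theta) / 2)) ∧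
    ((∃ σ₀ : ℝ, 1 / 2 < σ₀ ∧ σ₀ < 1 ∧ ∀ s : ℂ, σ₀ ≤ s.re → riemannZeta s ≠ 0) ↔
      ∃ δ : ℝ, 0 < δ ∧ ∀ᶠ x : ℝ in atTop, (N x : ℝ) ≤ Real.exp (Real.log x ^ (1 - δ))) ∧
    (∃ c : ℝ, 0 < c ∧ ∀ᶠ x : ℝ in atTop,
      (N x : ℝ) ≤ x ^ Real.exp (-(c * √(Real.log (Real.log x))))) ∧
    (∀ β : ℝ, 0 < β → 1 - Theta < β →
      Tendsto (fun x : ℝ => Real.log (Real.log (NBy 1 β x)) / Real.log (Real.log x)) atTop
        (𝓝 ((1 + Theta) / 2))) ∧
    (∀ β : ℝ, 0 < β → β < 1 - Theta → {n : ℕ | LargeBy 1 β n}.Finite) ∧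
    (∀ β : ℝ, 0 < β → β ≤ 1 →
      Tendsto (fun x : ℝ => Real.log (Real.log (NBy (-1) β x)) / Real.log (Real.log x)) atTop
        (𝓝 (max (1 - β / 2) ((1 + Theta) / 2)))) ∧
    ((∃ σ₀ : ℝ, 1 / 2 < σ₀ ∧ σ₀ < 1 ∧ ∀ s : ℂ, σ₀ ≤ s.re → riemannZeta s ≠ 0) ↔
      ∃ β : ℝ, 0 < β ∧ β ≤ 1 ∧
        Tendsto (fun x : ℝ => Real.log (Real.log (NBy (-1) β x)) / Real.log (Real.log x)) atTop
          (𝓝 (1 - β / 2))) := by
  refine ⟨?_, ?_, ?_, ?_, ?_, ?_, ?_⟩
  · rw [show Theta = Pool.Agent.K3h81.RB.Th from rfl]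
    refine Pool.Agent.K3h81.RB.lim_f.congr' ?_
    filter_upwards [eventually_ge_atTop 0] with x hx
    rw [N_eq x hx]
  · constructor
    · rintro ⟨σ₀, h0, h1, h⟩
      have h2 := Pool.Agent.K3h81.RB.cnt_of_free h0.le h1 (fun s hs => h s hs.le)
      refine ⟨(1 - σ₀) / 4, by linarith, ?_⟩
      filter_upwards [h2 ((1 - σ₀) / 4) (by linarith), eventually_ge_atTop 0] with x hx hx0
      rw [N_eq x hx0]
      refine hx.trans (le_of_eq ?_)
      congr 2
      ring
    · rintro ⟨δ, hδ, h⟩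
      set δ' : ℝ := min δ (1 / 8) with hδ'
      have hd1 : 0 < δ' := lt_min hδ (by norm_num)
      have hd2 : δ' ≤ δ := min_le_left _ _
      have hd3 : δ' ≤ 1 / 8 := min_le_right _ _
      have h2 : Pool.Agent.K3h81.RB.ZFree (1 - 2 * δ') := by
        rw [(Pool.Agent.K3h81.RB.exponents (by linarith) (by linarith)).2.1]
        intro ε hε
        filter_upwards [h, eventually_ge_atTop (Real.exp 1)] with x hx hx1
        have hx0 : 0 < x := (Real.exp_pos 1).trans_le hx1
        have hl : 1 ≤ Real.log x := by rwa [Real.le_log_iff_exp_le hx0]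
        rw [N_eq x hx0.le] at hx
        refine hx.trans (Real.exp_le_exp.2 (Real.rpow_le_rpow_of_exponent_le hl ?_))
        linarith
      refine ⟨1 - δ', by linarith, by linarith, fun s hs => h2 s (by linarith)⟩
  · obtain ⟨c, hc, h⟩ := Pool.Agent.K3h81.RB.up_cnt_exp
    refine ⟨c, hc, ?_⟩
    filter_upwards [Real.tendsto_log_atTop.eventually h, eventually_gt_atTop 0] with x hx hx0
    rw [Real.exp_log hx0] at hx
    rwa [N_eq x hx0.le, Real.rpow_def_of_pos hx0]
  · intro β h0 h1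
    rw [tendsto_surplus]
    exact Pool.Agent.K3h81.RB.lim_surplus_f h1 h0
  · intro β h0 h1
    have h := Pool.Agent.K3h81.RB.no_surplus_f h0 h1
    rw [← Nat.cofinite_eq_atTop, eventually_cofinite] at h
    refine (h.union (Set.finite_singleton 0)).subset fun n hn => ?_
    rcases Nat.eq_zero_or_pos n with h2 | h2
    · exact Or.inr h2
    · left
      rw [Set.mem_ofPred_eq, not_not]
      exact (surplus_iff β n h2).1 hn
  · intro β h0 h1
    rw [tendsto_near]
    exact Pool.Agent.K3h81.RB.lim_near_f h0 h1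
  · have hT := Pool.Agent.K3h81.RB.Th_ge
    constructor
    · rintro ⟨σ₀, h0, h1, h⟩
      have h2 : Pool.Agent.K3h81.RB.Th ≤ σ₀ := by
        by_contra hcon
        push Not at hcon
        obtain ⟨ρ, hρ, hρ2⟩ := Pool.Agent.K3h81.RB.exists_zero_gt hcon
        exact h ρ hρ2.le hρ
      refine ⟨1 - Pool.Agent.K3h81.RB.Th, by linarith, by linarith, ?_⟩
      rw [tendsto_near]
      have h3 := Pool.Agent.K3h81.RB.lim_near_f (β := 1 - Pool.Agent.K3h81.RB.Th) (by linarith)
        (by linarith)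
      rwa [max_eq_left (by linarith)] at h3
    · rintro ⟨β, h0, h1, h⟩
      rw [tendsto_near] at h
      have h4 := tendsto_nhds_unique h (Pool.Agent.K3h81.RB.lim_near_f h0 h1)
      have h5 : (1 + Pool.Agent.K3h81.RB.Th) / 2 ≤ 1 - β / 2 := by
        rw [h4]; exact le_max_right _ _
      refine ⟨(1 + Pool.Agent.K3h81.RB.Th) / 2, by linarith, by linarith, fun s hs => ?_⟩
      exact Pool.Agent.K3h81.RB.Th_free s (by linarith)

end

end Pool.Agent.Results.MP_5a4862_nt.TotientExceptions
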